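import Pool.Agent.Helper74.RN.St

set_option autoImplicit false

namespace Pool.Agent.Helper57.RN

open Pool.Agent.Helper74 Pool.Agent.Helper74.RN

private theorem rnc_split {G : Type} (R : G → G → Prop) (N : ℕ) (L₂ : List (Ce G))
    (h2 : ∀ y, Ce.a y ∉ L₂) {L : List (Ce G)} {i k : ℕ} (h : Rn R N L i k) :
    ∀ L₁ : List (Ce G), L = L₁ ++ L₂ → ∃ j, Rn R N L₁ i j ∧ Rn R N L₂ j k := by
  induction h with
  | nil i =>
    intro L₁ hL
    have h1 : L₁ = [] := by
      cases L₁ with
      | nil => rfl
      | cons a l => simp at hL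
    subst h1
    have h3 : L₂ = [] := by simpa using hL.symm
    subst h3
    exact ⟨i, Rn.nil i, Rn.nil i⟩
  | one A d l i j k hA hi hj hd hr ih =>
    intro L₁ hL
    cases L₁ with
    | nil =>
      refine ⟨i, Rn.nil i, ?_⟩
      rw [List.nil_append] at hL
      rw [← hL]
      exact Rn.one A d l i j k hA hi hj hd hr
    | cons a l₁ =>
      rw [List.cons_append, List.cons.injEq] at hL
      obtain ⟨rfl, hl⟩ := hL
      obtain ⟨j', h3, h4⟩ := ih l₁ hl
      exact ⟨j', Rn.one A d l₁ i j j' hA hi hj hd h3, h4⟩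
  | two x y u v i j k hR hi hj hu hv ihu ihv =>
    intro L₁ hL
    cases L₁ with
    | nil =>
      refine ⟨i, Rn.nil i, ?_⟩
      rw [List.nil_append] at hL
      rw [← hL]
      exact Rn.two x y u v i j k hR hi hj hu hv
    | cons a l₁ =>
      rw [List.cons_append, List.cons.injEq] at hL
      obtain ⟨rfl, hl⟩ := hL
      rcases List.append_eq_append_iff.1 hl with ⟨a', h3, h4⟩ | ⟨c', h3, h4⟩
      · cases a' with
        | nil =>
          exfalso
          rw [List.nil_append] at h4
          apply h2 y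
          rw [← h4]
          exact List.mem_cons_self
        | cons b a' =>
          rw [List.cons_append, List.cons.injEq] at h4
          obtain ⟨rfl, h5⟩ := h4
          obtain ⟨j', h6, h7⟩ := ihv a' h5
          refine ⟨j', ?_, h7⟩
          rw [h3]
          exact Rn.two x y u a' i j j' hR hi hj hu h6
      · exfalso
        apply h2 y
        rw [h4]
        simp

private theorem rnc_join {G : Type} (R : G → G → Prop) (N : ℕ) (L₂ : List (Ce G)) (k : ℕ)
    {L₁ : List (Ce G)} {i j : ℕ} (h : Rn R N L₁ i j) :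
    Rn R N L₂ j k → Rn R N (L₁ ++ L₂) i k := by
  induction h with
  | nil i => exact fun h => h
  | one A d l i j k' hA hi hj hd _ ih =>
    intro h
    exact Rn.one A d (l ++ L₂) i j k hA hi hj hd (ih h)
  | two x y u v i j k' hR hi hj hu _ _ ihv =>
    intro h
    have h3 : (Ce.a x :: (u ++ Ce.a y :: v)) ++ L₂ = Ce.a x :: (u ++ Ce.a y :: (v ++ L₂)) := by
      simp
    rw [h3]
    exact Rn.two x y u (v ++ L₂) i j k hR hi hj hu (ihv h)

/-- RNC. -/
theorem hRNC : Pool.Agent.Helper74.RN.StRNC := by
  intro G R N L₁ L₂ i k h2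
  constructor
  · intro h
    exact rnc_split R N L₂ h2 h L₁ rfl
  · rintro ⟨j, h3, h4⟩
    exact rnc_join R N L₂ k h3 h4

end Pool.Agent.Helper57.RN
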